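import Pool.Agent.H62.Hts4

set_option autoImplicit false

namespace Pool.Agent.Results.MP_6fabb2_lc.NotW

open Pool.Agent.H62.Pk

/-- Hindman's theorem for sums of exactly two elements is not Weihrauch reducible to the rainbow
Ramsey theorem for pairs. -/
theorem result : ¬ WLe colRep setRep HT22 pairNRep setRep RRT22 := not_HT

end Pool.Agent.Results.MP_6fabb2_lc.NotW
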